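import Pool.Agent.Q72.AL.Stm2

/-!
# Project AL (helper72), JOB MT: the Mellin transform of `BB`
-/

set_option autoImplicit false

open Complex MeasureTheory Filter Topology Set
open Pool.Agent.Q72.AL

namespace Pool.Agent.Q285.AL

noncomputable section

/-- the Gaussian factor -/
def Gs (s : ℂ) : ℂ := cexp (s ^ 2) / (4 * ((Real.sqrt Real.pi : ℝ) : ℂ))

/-- the Dirichlet series of the squarefree numbers -/
def Sq (s : ℂ) : ℂ :=
  ∑' n : ℕ, (((ArithmeticFunction.moebius n : ℤ) : ℂ)) ^ 2 * (n : ℂ) ^ (-(1 + s))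

lemma Gs_ne (s : ℂ) : Gs s ≠ 0 := by
  unfold Gs
  have h : Real.sqrt Real.pi ≠ 0 := by positivity
  have h' : ((Real.sqrt Real.pi : ℝ) : ℂ) ≠ 0 := by exact_mod_cast h
  exact div_ne_zero (Complex.exp_ne_zero _) (mul_ne_zero (by norm_num) h')

lemma Sq_ne (h1 : J_SQF) (σ : ℝ) (hσ : 0 < σ) : Sq (σ : ℂ) ≠ 0 := by
  intro h
  have h2 := h1 (1 + (σ : ℂ)) (by simp [hσ])
  unfold Sq at h
  rw [h, zero_mul] at h2
  refine riemannZeta_ne_zero_of_one_le_re ?_ h2.symm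
  simp only [add_re, one_re, ofReal_re]
  linarith

/-- the terms -/
def tm (τ : ℝ) (s : ℂ) (n : ℕ) (z : ℝ) : ℂ :=
  ((cf 2 (Real.log z + Real.log τ) n ^ 2 : ℝ) : ℂ) * (z : ℂ) ^ (-s - 1)

lemma tm_zero (τ : ℝ) (s : ℂ) (z : ℝ) : tm τ s 0 z = 0 := by
  unfold tm cf
  simp

lemma tm_eq (τ : ℝ) (hτ : 0 < τ) (s : ℂ) (n : ℕ) (hn : n ≠ 0) (z : ℝ) :
    tm τ s n z = ((((ArithmeticFunction.moebius n : ℤ) : ℂ)) ^ 2 * (n : ℂ)⁻¹) *
      (((gg 2 (Real.log z - Real.log (n / τ)) ^ 2 : ℝ) : ℂ) * (z : ℂ) ^ (-s - 1)) := by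
  have hn0 : (0 : ℝ) < n := by exact_mod_cast Nat.pos_of_ne_zero hn
  have h1 : Real.log z + Real.log τ - Real.log n = Real.log z - Real.log (n / τ) := by
    rw [Real.log_div hn0.ne' hτ.ne']
    ring
  have h2 : ((n : ℝ) ^ (-(1 / 2) : ℝ)) ^ 2 = (n : ℝ)⁻¹ := by
    rw [← Real.rpow_natCast, ← Real.rpow_mul hn0.le]
    norm_num
    exact Real.rpow_neg_one _
  unfold tm cf
  rw [h1, mul_pow, mul_pow, h2]
  push_cast
  ring

lemma tm_meas (τ : ℝ) (s : ℂ) (n : ℕ) : Measurable (tm τ s n) := by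
  unfold tm cf gg
  fun_prop

lemma tm_int (h3 : J_GI) (τ : ℝ) (hτ : 0 < τ) (s : ℂ) (n : ℕ) :
    IntegrableOn (tm τ s n) (Ioi 0) ∧ ∫ z in Ioi (0 : ℝ), tm τ s n z =
      (((ArithmeticFunction.moebius n : ℤ) : ℂ)) ^ 2 * (n : ℂ) ^ (-(1 + s)) *
        ((τ : ℂ) ^ s * Gs s) := by
  by_cases hn : n = 0
  · subst hn
    have h0 : tm τ s 0 = fun _ => 0 := funext fun z => tm_zero τ s z
    rw [h0]
    refine ⟨integrableOn_zero, ?_⟩
    simp
  · have hn0 : (0 : ℝ) < n := by exact_mod_cast Nat.pos_of_ne_zero hn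
    have hnC : (n : ℂ) ≠ 0 := by exact_mod_cast hn
    have hτC : (τ : ℂ) ≠ 0 := by exact_mod_cast hτ.ne'
    have h0 : tm τ s n = fun z : ℝ => ((((ArithmeticFunction.moebius n : ℤ) : ℂ)) ^ 2 * (n : ℂ)⁻¹) *
      (((gg 2 (Real.log z - Real.log (n / τ)) ^ 2 : ℝ) : ℂ) * (z : ℂ) ^ (-s - 1)) :=
      funext fun z => tm_eq τ hτ s n hn z
    obtain ⟨g1, g2⟩ := h3 s (n / τ) (by positivity)
    rw [h0]
    refine ⟨g1.const_mul _, ?_⟩
    rw [integral_const_mul, g2]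
    have h4 : ((n / τ : ℝ) : ℂ) ^ (-s) = (n : ℂ) ^ (-s) * (τ : ℂ) ^ s := by
      have h5 : ((n / τ : ℝ) : ℂ) = ((n : ℝ) : ℂ) * ((τ⁻¹ : ℝ) : ℂ) := by
        push_cast
        ring
      rw [h5, Complex.mul_cpow_ofReal_nonneg hn0.le (by positivity)]
      congr 1
      rw [Complex.ofReal_inv, Complex.inv_cpow _ _ (by
        rw [Complex.arg_ofReal_of_nonneg hτ.le]
        exact Real.pi_pos.ne), Complex.cpow_neg, inv_inv]
    have h6 : (n : ℂ) ^ (-(1 + s)) = (n : ℂ)⁻¹ * (n : ℂ) ^ (-s) := by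
      rw [show -(1 + s) = -1 + -s by ring, Complex.cpow_add _ _ hnC, Complex.cpow_neg_one]
    rw [h4, h6]
    unfold Gs
    ring

/-- the norm of a term -/
lemma tm_norm (τ : ℝ) (s : ℂ) (n : ℕ) (z : ℝ) (hz : 0 < z) :
    ‖tm τ s n z‖ = cf 2 (Real.log z + Real.log τ) n ^ 2 * z ^ (-s.re - 1) := by
  unfold tm
  rw [norm_mul, Complex.norm_real, Complex.norm_cpow_eq_rpow_re_of_pos hz, Real.norm_eq_abs,
    abs_of_nonneg (sq_nonneg _)]
  simp

lemma cpow_real (z : ℝ) (hz : 0 < z) (σ : ℝ) :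
    (z : ℂ) ^ (-(σ : ℂ) - 1) = ((z ^ (-σ - 1) : ℝ) : ℂ) := by
  rw [Complex.ofReal_cpow hz.le]
  push_cast
  rfl

lemma tm_norm_int (τ : ℝ) (s : ℂ) (n : ℕ) :
    ∫ z in Ioi (0 : ℝ), ‖tm τ s n z‖ = ‖∫ z in Ioi (0 : ℝ), tm τ (s.re : ℂ) n z‖ := by
  have h1 : ∫ z in Ioi (0 : ℝ), tm τ (s.re : ℂ) n z =
      ((∫ z in Ioi (0 : ℝ), cf 2 (Real.log z + Real.log τ) n ^ 2 * z ^ (-s.re - 1) : ℝ) : ℂ) := by
    rw [← integral_complex_ofReal]
    refine setIntegral_congr_fun measurableSet_Ioi fun z hz => ?_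
    simp only [tm]
    rw [cpow_real z hz]
    push_cast
    rfl
  rw [h1, Complex.norm_real, Real.norm_eq_abs, abs_of_nonneg]
  · exact setIntegral_congr_fun measurableSet_Ioi fun z hz => tm_norm τ s n z hz
  · refine setIntegral_nonneg measurableSet_Ioi fun z hz => ?_
    have : 0 ≤ z ^ (-s.re - 1) := Real.rpow_nonneg (le_of_lt hz) _
    positivity

lemma mu_sq_le (n : ℕ) : ‖(((ArithmeticFunction.moebius n : ℤ) : ℂ)) ^ 2‖ ≤ 1 := by
  rw [norm_pow]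
  have h1 : ‖((ArithmeticFunction.moebius n : ℤ) : ℂ)‖ ≤ 1 := by
    rw [Complex.norm_intCast]
    exact_mod_cast ArithmeticFunction.abs_moebius_le_one
  exact pow_le_one₀ (norm_nonneg _) h1

lemma tm_summable (h3 : J_GI) (τ : ℝ) (hτ : 0 < τ) (s : ℂ) (hs : 0 < s.re) :
    Summable fun n : ℕ => ∫ z in Ioi (0 : ℝ), ‖tm τ s n z‖ := by
  have h1 : Summable fun n : ℕ => (n : ℝ) ^ (-(1 + s.re)) * ‖(τ : ℂ) ^ (s.re : ℂ) * Gs (s.re : ℂ)‖ :=
    (Real.summable_nat_rpow.mpr (by linarith)).mul_right _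
  refine Summable.of_nonneg_of_le (fun n => integral_nonneg fun z => norm_nonneg _) (fun n => ?_) h1
  rw [tm_norm_int, (tm_int h3 τ hτ (s.re : ℂ) n).2, norm_mul]
  refine mul_le_mul_of_nonneg_right ?_ (norm_nonneg _)
  by_cases hn : n = 0
  · subst hn
    have : (0 : ℝ) ≤ ((0 : ℕ) : ℝ) ^ (-(1 + s.re)) := Real.rpow_nonneg (by simp) _
    simpa using this
  · rw [norm_mul, Complex.norm_natCast_cpow_of_pos (Nat.pos_of_ne_zero hn)]
    have h2 : (-(1 + (s.re : ℂ))).re = -(1 + s.re) := by simp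
    rw [h2]
    have h4 : (0 : ℝ) ≤ (n : ℝ) ^ (-(1 + s.re)) := Real.rpow_nonneg (Nat.cast_nonneg _) _
    calc _ ≤ 1 * (n : ℝ) ^ (-(1 + s.re)) := mul_le_mul_of_nonneg_right (mu_sq_le n) h4
      _ = _ := one_mul _

/-- the function which is integrated over `z` -/
def Af (τ : ℝ) (s : ℂ) (z : ℝ) : ℂ :=
  ((AA 2 (Real.log z + Real.log τ) : ℝ) : ℂ) * (z : ℂ) ^ (-s - 1)

lemma Af_eq (τ : ℝ) (s : ℂ) (z : ℝ) : ∑' n : ℕ, tm τ s n z = Af τ s z := by
  unfold tm Af AA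
  rw [tsum_mul_right, ← Complex.ofReal_tsum]

lemma Af_meas (h6 : J_DDC) (s : ℂ) : Measurable fun p : ℝ × ℝ => Af p.2 s p.1 := by
  have h1 : Continuous (AA 2) := (h6 2 (by norm_num) le_rfl).2
  have h2 := h1.measurable
  unfold Af
  fun_prop

lemma Af_int (h3 : J_GI) (τ : ℝ) (hτ : 0 < τ) (s : ℂ) (hs : 0 < s.re) :
    ∫ z in Ioi (0 : ℝ), Af τ s z = (τ : ℂ) ^ s * (Gs s * Sq s) := by
  have h1 := hasSum_integral_of_summable_integral_norm
    (μ := volume.restrict (Ioi (0 : ℝ))) (F := fun n => tm τ s n)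
    (fun n => (tm_int h3 τ hτ s n).1) (tm_summable h3 τ hτ s hs)
  simp only [Af_eq] at h1
  rw [← h1.tsum_eq]
  simp only [(tm_int h3 τ hτ s _).2]
  rw [tsum_mul_right]
  unfold Sq
  ring

lemma Af_real (τ : ℝ) (σ : ℝ) (z : ℝ) (hz : 0 < z) :
    Af τ (σ : ℂ) z = ((AA 2 (Real.log z + Real.log τ) * z ^ (-σ - 1) : ℝ) : ℂ) := by
  unfold Af
  rw [cpow_real z hz]
  push_cast
  rfl

lemma AA_nonneg (v : ℝ) : 0 ≤ AA 2 v := tsum_nonneg fun _ => sq_nonneg _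

lemma Af_norm (τ : ℝ) (s : ℂ) (z : ℝ) (hz : 0 < z) :
    ‖Af τ s z‖ = AA 2 (Real.log z + Real.log τ) * z ^ (-s.re - 1) := by
  unfold Af
  rw [norm_mul, Complex.norm_real, Complex.norm_cpow_eq_rpow_re_of_pos hz, Real.norm_eq_abs,
    abs_of_nonneg (AA_nonneg _)]
  simp

lemma Af_norm_int (h3 : J_GI) (τ : ℝ) (hτ : 0 < τ) (s : ℂ) (hs : 0 < s.re) :
    ∫ z in Ioi (0 : ℝ), ‖Af τ s z‖ = τ ^ s.re * ‖Gs (s.re : ℂ) * Sq (s.re : ℂ)‖ := by
  have h0 := Af_int h3 τ hτ (s.re : ℂ) (by simpa using hs)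
  have h1 : ∫ z in Ioi (0 : ℝ), Af τ (s.re : ℂ) z =
      ((∫ z in Ioi (0 : ℝ), AA 2 (Real.log z + Real.log τ) * z ^ (-s.re - 1) : ℝ) : ℂ) := by
    rw [← integral_complex_ofReal]
    exact setIntegral_congr_fun measurableSet_Ioi fun z hz => Af_real τ s.re z hz
  have h2 : ∫ z in Ioi (0 : ℝ), ‖Af τ s z‖ = ‖∫ z in Ioi (0 : ℝ), Af τ (s.re : ℂ) z‖ := by
    rw [h1, Complex.norm_real, Real.norm_eq_abs, abs_of_nonneg]
    · exact setIntegral_congr_fun measurableSet_Ioi fun z hz => Af_norm τ s z hz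
    · refine setIntegral_nonneg measurableSet_Ioi fun z hz => ?_
      have : 0 ≤ z ^ (-s.re - 1) := Real.rpow_nonneg (le_of_lt hz) _
      exact mul_nonneg (AA_nonneg _) this
  rw [h2, h0, norm_mul, Complex.norm_cpow_eq_rpow_re_of_pos hτ, Complex.ofReal_re]

lemma Af_integrable (h1 : J_SQF) (h3 : J_GI) (h6 : J_DDC) (τ : ℝ) (hτ : 0 < τ) (s : ℂ)
    (hs : 0 < s.re) : IntegrableOn (Af τ s) (Ioi 0) := by
  have h2 : IntegrableOn (Af τ (s.re : ℂ)) (Ioi 0) := by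
    apply Integrable.of_integral_ne_zero
    rw [Af_int h3 τ hτ (s.re : ℂ) (by simpa using hs)]
    refine mul_ne_zero ?_ (mul_ne_zero (Gs_ne _) (Sq_ne h1 _ hs))
    rw [Complex.cpow_ne_zero_iff]
    left
    exact_mod_cast hτ.ne'
  refine Integrable.mono h2 ?_ ?_
  · have h5 : Measurable fun z : ℝ => (z, τ) := by fun_prop
    have h4 := (Af_meas h6 s).comp h5
    exact Measurable.aestronglyMeasurable h4
  · refine (ae_restrict_iff' measurableSet_Ioi).mpr (ae_of_all _ fun z hz => ?_)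
    rw [Af_norm τ s z hz, Af_norm τ _ z hz, Complex.ofReal_re]

lemma wt_meas : Measurable wt := by
  unfold wt
  fun_prop

theorem mt (h1 : J_SQF) (h2 : J_WM) (h3 : J_GI) (h4 : J_BB) (h5 : J_DDB) (h6 : J_DDC)
    (h7 : J_WT) : J_MT := by
  intro s hs
  obtain ⟨w1, w2, w3, -⟩ := h7
  -- the function on the product
  have hm : Measurable fun p : ℝ × ℝ => ((wt p.2 : ℝ) : ℂ) * Af p.2 s p.1 := by
    have := Af_meas h6 s
    have := wt_meas
    fun_prop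
  have hint : Integrable (fun p : ℝ × ℝ => ((wt p.2 : ℝ) : ℂ) * Af p.2 s p.1)
      ((volume.restrict (Ioi (0 : ℝ))).prod (volume.restrict (Ioc (1 : ℝ) 2))) := by
    rw [integrable_prod_iff' hm.aestronglyMeasurable]
    constructor
    · refine (ae_restrict_iff' measurableSet_Ioc).mpr (ae_of_all _ fun τ hτ => ?_)
      have hτ0 : 0 < τ := by linarith [hτ.1]
      have := (Af_integrable h1 h3 h6 τ hτ0 s hs).const_mul ((wt τ : ℝ) : ℂ)
      exact this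
    · have hcont : ContinuousOn (fun τ : ℝ => wt τ *
          (τ ^ s.re * ‖Gs (s.re : ℂ) * Sq (s.re : ℂ)‖)) (Icc 1 2) := by
        refine ContinuousOn.mul (w2.mono fun x hx => ?_) (ContinuousOn.mul ?_ continuousOn_const)
        · exact lt_of_lt_of_le one_pos hx.1
        · intro x hx
          exact (Real.continuousAt_rpow_const _ _ (Or.inl (by
            have := hx.1
            linarith))).continuousWithinAt
      refine ((hcont.integrableOn_Icc).mono_set Ioc_subset_Icc_self).congr ?_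
      refine (ae_restrict_iff' measurableSet_Ioc).mpr (ae_of_all _ fun τ hτ => ?_)
      have hτ0 : 0 < τ := by linarith [hτ.1]
      have hw := (w1 τ ⟨hτ.1.le, hτ.2⟩).1
      simp only [norm_mul, Complex.norm_real, Real.norm_eq_abs, abs_of_nonneg hw]
      rw [integral_const_mul, Af_norm_int h3 τ hτ0 s hs, norm_mul]
  have hBB : ∀ z : ℝ, ((BB z : ℝ) : ℂ) * (z : ℂ) ^ (-s - 1) =
      ∫ τ in Ioc (1 : ℝ) 2, ((wt τ : ℝ) : ℂ) * Af τ s z := by
    intro z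
    unfold BB
    rw [intervalIntegral.integral_of_le (by norm_num), ← integral_complex_ofReal, ← integral_mul_const]
    refine integral_congr_ae (ae_of_all _ fun τ => ?_)
    simp only [Af]
    push_cast
    ring
  constructor
  · have := hint.integral_prod_left
    refine this.congr (ae_of_all _ fun z => ?_)
    exact (hBB z).symm
  · have hI : ∫ z in Ioi (0 : ℝ), ((BB z : ℝ) : ℂ) * (z : ℂ) ^ (-s - 1) =
        (((2 : ℂ) ^ ((s + 1) / 2) - 1) / (s + 1)) ^ 2 * (Gs s * Sq s) := by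
      simp only [hBB]
      rw [integral_integral_swap (f := fun z τ => ((wt τ : ℝ) : ℂ) * Af τ s z) hint]
      have hs1 : s ≠ -1 := by
        rintro rfl
        norm_num at hs
      rw [← h2 s hs1, intervalIntegral.integral_of_le (by norm_num), ← integral_mul_const]
      refine setIntegral_congr_fun measurableSet_Ioc fun τ hτ => ?_
      have hτ0 : 0 < τ := by linarith [hτ.1]
      rw [integral_const_mul, Af_int h3 τ hτ0 s hs]
      ring
    rw [hI]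
    have h8 := h1 (1 + s) (by simpa using hs)
    have h9 : (2 : ℂ) + 2 * s = 2 * (1 + s) := by ring
    rw [h9, ← h8]
    unfold Gs Sq
    ring

end

end Pool.Agent.Q285.AL
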